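import Pool.Agent.H187F.Lower

set_option autoImplicit false

namespace Pool.Agent.H187F

open Finset

open Classical

set_option linter.unusedSectionVars false

theorem mem_near {V : Type} [Fintype V] (B R H : SimpleGraph V) (v : V) (e : Sym2 V) :
    e ∈ near B R H v ↔ e ∈ H.edgeSet ∧ ∀ x ∈ e, x = v ∨ (B ⊔ R).Adj v x := by
  unfold near
  rw [mem_filter, SimpleGraph.mem_edgeFinset]

/-- circulant graph with the distances in `[a, c]` -/
def circ (n a c : ℕ) (ha : 1 ≤ a) (hc : c < n) : SimpleGraph (ZMod n) where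
  Adj x y := ∃ t : ℕ, a ≤ t ∧ t ≤ c ∧ (y = x + (t : ZMod n) ∨ x = y + (t : ZMod n))
  symm := ⟨by
    rintro x y ⟨t, h1, h2, h3⟩
    exact ⟨t, h1, h2, h3.symm⟩⟩
  loopless := ⟨by
    rintro x ⟨t, h1, h2, h3⟩
    have h4 : x = x + (t : ZMod n) := by
      rcases h3 with h | h <;> exact h
    have h5 : (t : ZMod n) = 0 := by
      have := h4.symm
      rwa [add_eq_left] at this
    rw [ZMod.natCast_eq_zero_iff] at h5
    have := Nat.le_of_dvd (by omega) h5
    omega⟩

theorem cast_inj {n s t : ℕ} (hs : s < n) (ht : t < n) (h : (s : ZMod n) = (t : ZMod n)) :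
    s = t := by
  rw [ZMod.natCast_eq_natCast_iff', Nat.mod_eq_of_lt hs, Nat.mod_eq_of_lt ht] at h
  exact h

theorem circ_degree (n a c : ℕ) [NeZero n] (ha : 1 ≤ a) (hc : c < n) (h2 : 2 * c < n)
    (hac : a ≤ c + 1) (v : ZMod n) : (circ n a c ha hc).degree v = 2 * (c + 1 - a) := by
  have h1 : (circ n a c ha hc).neighborFinset v
      = ((Finset.Icc a c).image (fun t : ℕ => v + (t : ZMod n))) ∪
        ((Finset.Icc a c).image (fun t : ℕ => v - (t : ZMod n))) := by
    ext y
    rw [SimpleGraph.mem_neighborFinset, mem_union, mem_image, mem_image]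
    constructor
    · rintro ⟨t, t1, t2, t3 | t3⟩
      · exact Or.inl ⟨t, mem_Icc.2 ⟨t1, t2⟩, t3.symm⟩
      · exact Or.inr ⟨t, mem_Icc.2 ⟨t1, t2⟩, by rw [t3, add_sub_cancel_right]⟩
    · rintro (⟨t, ht, h⟩ | ⟨t, ht, h⟩)
      · exact ⟨t, (mem_Icc.1 ht).1, (mem_Icc.1 ht).2, Or.inl h.symm⟩
      · exact ⟨t, (mem_Icc.1 ht).1, (mem_Icc.1 ht).2, Or.inr (by rw [← h, sub_add_cancel])⟩
  have hdis : Disjoint ((Finset.Icc a c).image (fun t : ℕ => v + (t : ZMod n)))
      ((Finset.Icc a c).image (fun t : ℕ => v - (t : ZMod n))) := by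
    rw [Finset.disjoint_left]
    intro y h3 h4
    rw [mem_image] at h3 h4
    obtain ⟨s, hs, rfl⟩ := h3
    obtain ⟨t, ht, h5⟩ := h4
    rw [mem_Icc] at hs ht
    have h6 : ((s + t : ℕ) : ZMod n) = 0 := by
      push_cast
      have h7 : v - (t : ZMod n) = v + s := h5
      linear_combination -h7
    rw [ZMod.natCast_eq_zero_iff] at h6
    have := Nat.le_of_dvd (by omega) h6
    omega
  rw [← SimpleGraph.card_neighborFinset_eq_degree, h1, Finset.card_union_of_disjoint hdis,
    Finset.card_image_of_injOn, Finset.card_image_of_injOn, Nat.card_Icc]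
  · omega
  · intro s hs t ht h
    rw [coe_Icc, Set.mem_Icc] at hs ht
    have h' : v - (s : ZMod n) = v - t := h
    exact cast_inj (by omega) (by omega) (sub_right_injective h')
  · intro s hs t ht h
    rw [coe_Icc, Set.mem_Icc] at hs ht
    have h' : v + (s : ZMod n) = v + t := h
    exact cast_inj (by omega) (by omega) (add_left_cancel h')

section count

variable (n p D : ℕ) [NeZero n] (hp : 1 ≤ p) (hpD : p ≤ D) (hn : 3 * D < n)

theorem circ_disj (hp' : p < n) (hD' : D < n) (h2 : 2 * D < n) (hp1 : 1 ≤ p + 1) (hpD : p ≤ D)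
    (x y : ZMod n) (h : (circ n 1 p le_rfl hp').Adj x y) :
    ¬ (circ n (p + 1) D hp1 hD').Adj x y := by
  rintro ⟨t, t1, t2, t3⟩
  obtain ⟨s, s1, s2, s3⟩ := h
  rcases s3 with s3 | s3 <;> rcases t3 with t3 | t3
  · have := cast_inj (n := n) (s := s) (t := t) (by omega) (by omega)
      (add_left_cancel (s3.symm.trans t3))
    omega
  · have h6 : ((s + t : ℕ) : ZMod n) = 0 := by
      push_cast
      rw [s3] at t3
      linear_combination -t3
    rw [ZMod.natCast_eq_zero_iff] at h6
    have := Nat.le_of_dvd (by omega) h6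
    omega
  · have h6 : ((s + t : ℕ) : ZMod n) = 0 := by
      push_cast
      rw [s3] at t3
      linear_combination -t3
    rw [ZMod.natCast_eq_zero_iff] at h6
    have := Nat.le_of_dvd (by omega) h6
    omega
  · have := cast_inj (n := n) (s := s) (t := t) (by omega) (by omega)
      (add_left_cancel (s3.symm.trans t3))
    omega

/-- the closed neighbourhood is an interval -/
theorem mem_nbhd (hp' : p < n) (hD' : D < n) (hp1 : 1 ≤ p + 1) (hpD : p ≤ D)
    (v x : ZMod n) :
    (x = v ∨ (circ n 1 p le_rfl hp' ⊔ circ n (p + 1) D hp1 hD').Adj v x) ↔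
      ∃ i : ℕ, i ≤ 2 * D ∧ x = v - (D : ZMod n) + (i : ZMod n) := by
  rw [SimpleGraph.sup_adj]
  constructor
  · rintro (h | ⟨t, t1, t2, t3⟩ | ⟨t, t1, t2, t3⟩)
    · exact ⟨D, by omega, by rw [h, sub_add_cancel]⟩
    · rcases t3 with t3 | t3
      · exact ⟨D + t, by omega, by rw [t3]; push_cast; ring⟩
      · refine ⟨D - t, by omega, ?_⟩
        rw [Nat.cast_sub (by omega), t3]; ring
    · rcases t3 with t3 | t3
      · exact ⟨D + t, by omega, by rw [t3]; push_cast; ring⟩
      · refine ⟨D - t, by omega, ?_⟩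
        rw [Nat.cast_sub (by omega), t3]; ring
  · rintro ⟨i, hi, rfl⟩
    rcases Nat.lt_trichotomy i D with h | h | h
    · right
      by_cases h1 : D - i ≤ p
      · left
        exact ⟨D - i, by omega, h1, Or.inr (by rw [Nat.cast_sub h.le]; ring)⟩
      · right
        exact ⟨D - i, by omega, by omega, Or.inr (by rw [Nat.cast_sub h.le]; ring)⟩
    · left; rw [h, sub_add_cancel]
    · right
      by_cases h1 : i - D ≤ p
      · left
        exact ⟨i - D, by omega, h1, Or.inl (by rw [Nat.cast_sub h.le]; ring)⟩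
      · right
        exact ⟨i - D, by omega, by omega, Or.inl (by rw [Nat.cast_sub h.le]; ring)⟩

/-- the edge with parameters `(t, i)` -/
def edg (v : ZMod n) (z : Σ _ : ℕ, ℕ) : Sym2 (ZMod n) :=
  s(v - (D : ZMod n) + (z.2 : ZMod n), v - (D : ZMod n) + ((z.2 + z.1 : ℕ) : ZMod n))

theorem near_le (hp' : p < n) (hD' : D < n) (hp1 : 1 ≤ p + 1) (hpD : p ≤ D) (hn : 3 * D < n)
    (v : ZMod n) :
    (near (circ n 1 p le_rfl hp') (circ n (p + 1) D hp1 hD')
      (circ n (p + 1) D hp1 hD') v).card ≤ ∑ t ∈ Finset.Icc (p + 1) D, (2 * D + 1 - t) := by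
  have hsub : near (circ n 1 p le_rfl hp') (circ n (p + 1) D hp1 hD')
      (circ n (p + 1) D hp1 hD') v ⊆
      ((Finset.Icc (p + 1) D).sigma (fun t => Finset.range (2 * D + 1 - t))).image
        (edg n D v) := by
    intro e he
    rw [mem_near] at he
    obtain ⟨he1, he2⟩ := he
    induction e using Sym2.ind with
    | _ x y =>
      rw [SimpleGraph.mem_edgeSet] at he1
      obtain ⟨i, hi, hxi⟩ := (mem_nbhd n p D hp' hD' hp1 hpD v x).1
        (he2 x (Sym2.mem_mk_left x y))
      obtain ⟨j, hj, hyj⟩ := (mem_nbhd n p D hp' hD' hp1 hpD v y).1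
        (he2 y (Sym2.mem_mk_right x y))
      obtain ⟨t, t1, t2, t3⟩ := he1
      rw [mem_image]
      rcases t3 with t3 | t3
      · have h1 : ((j : ℕ) : ZMod n) = ((i + t : ℕ) : ZMod n) := by
          rw [hxi, hyj] at t3
          push_cast
          linear_combination t3
        have h2 := cast_inj (n := n) (by omega) (by omega) h1
        refine ⟨⟨t, i⟩, ?_, ?_⟩
        · rw [mem_sigma, mem_Icc, mem_range]
          exact ⟨⟨t1, t2⟩, by simp only; omega⟩
        · unfold edg
          simp only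
          rw [← h2, ← hxi, ← hyj]
      · have h1 : ((i : ℕ) : ZMod n) = ((j + t : ℕ) : ZMod n) := by
          rw [hxi, hyj] at t3
          push_cast
          linear_combination t3
        have h2 := cast_inj (n := n) (by omega) (by omega) h1
        refine ⟨⟨t, j⟩, ?_, ?_⟩
        · rw [mem_sigma, mem_Icc, mem_range]
          exact ⟨⟨t1, t2⟩, by simp only; omega⟩
        · unfold edg
          simp only
          rw [← h2, ← hxi, ← hyj]
          exact Sym2.eq_swap
  refine (Finset.card_le_card hsub).trans (Finset.card_image_le.trans ?_)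
  rw [Finset.card_sigma]
  simp

theorem near_ge (hp' : p < n) (hD' : D < n) (hp1 : 1 ≤ p + 1) (hpD : p ≤ D) (hn : 3 * D < n)
    (v : ZMod n) :
    ∑ t ∈ Finset.Icc 1 p, (2 * D + 1 - t) ≤
    (near (circ n 1 p le_rfl hp') (circ n (p + 1) D hp1 hD')
      (circ n 1 p le_rfl hp') v).card := by
  have hinj : Set.InjOn (edg n D v)
      ((Finset.Icc 1 p).sigma (fun t => Finset.range (2 * D + 1 - t)) : Finset (Σ _ : ℕ, ℕ)) := by
    rintro ⟨t, i⟩ h1 ⟨s, j⟩ h2 h
    rw [mem_coe, mem_sigma, mem_Icc, mem_range] at h1 h2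
    simp only at h1 h2
    unfold edg at h
    simp only at h
    rw [Sym2.eq_iff] at h
    rcases h with ⟨a1, a2⟩ | ⟨a1, a2⟩
    · have b1 := cast_inj (n := n) (by omega) (by omega) (add_left_cancel a1)
      have b2 := cast_inj (n := n) (by omega) (by omega) (add_left_cancel a2)
      have b3 : t = s := by omega
      rw [b1, b3]
    · have b1 := cast_inj (n := n) (by omega) (by omega) (add_left_cancel a1)
      have b2 := cast_inj (n := n) (by omega) (by omega) (add_left_cancel a2)
      omega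
  have hsub : ((Finset.Icc 1 p).sigma (fun t => Finset.range (2 * D + 1 - t))).image
        (edg n D v) ⊆ near (circ n 1 p le_rfl hp') (circ n (p + 1) D hp1 hD')
      (circ n 1 p le_rfl hp') v := by
    intro e he
    rw [mem_image] at he
    obtain ⟨⟨t, i⟩, h1, rfl⟩ := he
    rw [mem_sigma, mem_Icc, mem_range] at h1
    simp only at h1
    rw [mem_near]
    unfold edg
    simp only
    constructor
    · rw [SimpleGraph.mem_edgeSet]
      exact ⟨t, h1.1.1, h1.1.2, Or.inl (by push_cast; ring)⟩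
    · intro x hx
      rw [Sym2.mem_iff] at hx
      rw [mem_nbhd n p D hp' hD' hp1 hpD v x]
      rcases hx with hx | hx
      · exact ⟨i, by omega, hx⟩
      · exact ⟨i + t, by omega, hx⟩
  refine le_trans ?_ (Finset.card_le_card hsub)
  rw [Finset.card_image_of_injOn hinj, Finset.card_sigma]
  simp

end count

end Pool.Agent.H187F
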