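import Pool.Agent.H187F.Circ

set_option autoImplicit false

namespace Pool.Agent.H187F

open Finset

open Classical

set_option linter.unusedSectionVars false

variable (n p D : ℕ) [NeZero n]

theorem near_le2 (hp' : p < n) (hD' : D < n) (hp1 : 1 ≤ p + 1) (hpD : p ≤ D) (hn : 2 * D < n)
    (v : ZMod n) :
    (near (circ n 1 p le_rfl hp') (circ n (p + 1) D hp1 hD')
      (circ n (p + 1) D hp1 hD') v).card ≤
      ∑ t ∈ Finset.Icc (p + 1) D ∪ Finset.Icc (n - D) (n - p - 1), (2 * D + 1 - t) := by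
  have hsub : near (circ n 1 p le_rfl hp') (circ n (p + 1) D hp1 hD')
      (circ n (p + 1) D hp1 hD') v ⊆
      ((Finset.Icc (p + 1) D ∪ Finset.Icc (n - D) (n - p - 1)).sigma
        (fun t => Finset.range (2 * D + 1 - t))).image (edg n D v) := by
    have key : ∀ x y : ZMod n, ∀ i j t : ℕ, i ≤ 2 * D → j ≤ 2 * D →
        x = v - (D : ZMod n) + (i : ZMod n) → y = v - (D : ZMod n) + (j : ZMod n) →
        p + 1 ≤ t → t ≤ D → y = x + (t : ZMod n) →
        s(x, y) ∈ ((Finset.Icc (p + 1) D ∪ Finset.Icc (n - D) (n - p - 1)).sigma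
        (fun t => Finset.range (2 * D + 1 - t))).image (edg n D v) := by
      intro x y i j t hi hj hxi hyj t1 t2 t3
      have h1 : ((j : ℕ) : ZMod n) = ((i + t : ℕ) : ZMod n) := by
        rw [hxi, hyj] at t3
        push_cast
        linear_combination t3
      rw [mem_image]
      by_cases hc : i + t < n
      · have h2 := cast_inj (n := n) (by omega) hc h1
        refine ⟨⟨t, i⟩, ?_, ?_⟩
        · rw [mem_sigma, mem_union, mem_Icc, mem_range]
          exact ⟨Or.inl ⟨t1, t2⟩, by simp only; omega⟩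
        · unfold edg
          simp only
          rw [← h2, ← hxi, ← hyj]
      · have h1' : ((j : ℕ) : ZMod n) = ((i + t - n : ℕ) : ZMod n) := by
          rw [h1, Nat.cast_sub (by omega), ZMod.natCast_self, sub_zero]
        have h2 := cast_inj (n := n) (by omega) (by omega) h1'
        refine ⟨⟨n - t, j⟩, ?_, ?_⟩
        · rw [mem_sigma, mem_union, mem_Icc, mem_Icc, mem_range]
          refine ⟨Or.inr ⟨by simp only; omega, by simp only; omega⟩, by simp only; omega⟩
        · unfold edg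
          simp only
          have h3 : j + (n - t) = i := by omega
          rw [h3, ← hxi, ← hyj]
          exact Sym2.eq_swap
    intro e he
    rw [mem_near] at he
    obtain ⟨he1, he2⟩ := he
    induction e using Sym2.ind with
    | _ x y =>
      rw [SimpleGraph.mem_edgeSet] at he1
      obtain ⟨i, hi, hxi⟩ := (mem_nbhd n p D hp' hD' hp1 hpD v x).1
        (he2 x (Sym2.mem_mk_left x y))
      obtain ⟨j, hj, hyj⟩ := (mem_nbhd n p D hp' hD' hp1 hpD v y).1
        (he2 y (Sym2.mem_mk_right x y))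
      obtain ⟨t, t1, t2, t3⟩ := he1
      rcases t3 with t3 | t3
      · exact key x y i j t hi hj hxi hyj t1 t2 t3
      · rw [Sym2.eq_swap]
        exact key y x j i t hj hi hyj hxi t1 t2 t3
  refine (Finset.card_le_card hsub).trans (Finset.card_image_le.trans ?_)
  rw [Finset.card_sigma]
  simp

theorem near_ge2 (hp' : p < n) (hD' : D < n) (hp1 : 1 ≤ p + 1) (hpD : p ≤ D) (hn : 2 * D < n)
    (v : ZMod n) :
    ∑ t ∈ Finset.Icc 1 p ∪ Finset.Icc (n - p) (2 * D), (2 * D + 1 - t) ≤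
    (near (circ n 1 p le_rfl hp') (circ n (p + 1) D hp1 hD')
      (circ n 1 p le_rfl hp') v).card := by
  have hinj : Set.InjOn (edg n D v)
      ((Finset.Icc 1 p ∪ Finset.Icc (n - p) (2 * D)).sigma
        (fun t => Finset.range (2 * D + 1 - t)) : Finset (Σ _ : ℕ, ℕ)) := by
    rintro ⟨t, i⟩ h1 ⟨s, j⟩ h2 h
    rw [mem_coe, mem_sigma, mem_union, mem_Icc, mem_Icc, mem_range] at h1 h2
    simp only at h1 h2
    unfold edg at h
    simp only at h
    rw [Sym2.eq_iff] at h
    rcases h with ⟨a1, a2⟩ | ⟨a1, a2⟩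
    · have b1 := cast_inj (n := n) (by omega) (by omega) (add_left_cancel a1)
      have b2 := cast_inj (n := n) (by omega) (by omega) (add_left_cancel a2)
      have b3 : t = s := by omega
      rw [b1, b3]
    · have b1 := cast_inj (n := n) (by omega) (by omega) (add_left_cancel a1)
      have b2 := cast_inj (n := n) (by omega) (by omega) (add_left_cancel a2)
      omega
  have hsub : ((Finset.Icc 1 p ∪ Finset.Icc (n - p) (2 * D)).sigma
      (fun t => Finset.range (2 * D + 1 - t))).image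
        (edg n D v) ⊆ near (circ n 1 p le_rfl hp') (circ n (p + 1) D hp1 hD')
      (circ n 1 p le_rfl hp') v := by
    intro e he
    rw [mem_image] at he
    obtain ⟨⟨t, i⟩, h1, rfl⟩ := he
    rw [mem_sigma, mem_union, mem_Icc, mem_Icc, mem_range] at h1
    simp only at h1
    rw [mem_near]
    unfold edg
    simp only
    constructor
    · rw [SimpleGraph.mem_edgeSet]
      rcases h1.1 with h2 | h2
      · exact ⟨t, h2.1, h2.2, Or.inl (by push_cast; ring)⟩
      · refine ⟨n - t, by omega, by omega, Or.inr ?_⟩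
        rw [Nat.cast_sub (by omega), ZMod.natCast_self]
        push_cast
        ring
    · intro x hx
      rw [Sym2.mem_iff] at hx
      rw [mem_nbhd n p D hp' hD' hp1 hpD v x]
      rcases hx with hx | hx
      · exact ⟨i, by omega, hx⟩
      · exact ⟨i + t, by omega, hx⟩
  refine le_trans ?_ (Finset.card_le_card hsub)
  rw [Finset.card_image_of_injOn hinj, Finset.card_sigma]
  simp

theorem sumF (D a c : ℕ) (hac : a ≤ c) (hc : c ≤ 2 * D) :
    (2 * ((∑ t ∈ Finset.Icc (a + 1) c, (2 * D + 1 - t) : ℕ) : ℤ))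
      = c * (4 * D + 1 - c) - a * (4 * D + 1 - a) := by
  induction c, hac using Nat.le_induction with
  | base => simp
  | succ c hac ih =>
    rw [Finset.sum_Icc_succ_top (by omega)]
    push_cast
    push_cast at ih
    rw [mul_add, ih (by omega), Nat.cast_sub (by omega)]
    push_cast
    ring

theorem arith1 (p s z : ℕ) (hz : z ≤ p) (hs : 1 ≤ s)
    (h : 2 * s * (4 * p + 2 * s + 1) < z * (z + 2 * s - 1)) :
    ∑ t ∈ Finset.Icc (p + 1) (2 * p + s) ∪
      Finset.Icc ((4 * p + 2 * s + 1 + z) - (2 * p + s)) ((4 * p + 2 * s + 1 + z) - p - 1),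
      (2 * (2 * p + s) + 1 - t) <
    ∑ t ∈ Finset.Icc 1 p ∪ Finset.Icc ((4 * p + 2 * s + 1 + z) - p) (2 * (2 * p + s)),
      (2 * (2 * p + s) + 1 - t) := by
  have e1 : (4 * p + 2 * s + 1 + z) - (2 * p + s) = (2 * p + s + z) + 1 := by omega
  have e2 : (4 * p + 2 * s + 1 + z) - p - 1 = 3 * p + 2 * s + z := by omega
  have e3 : (4 * p + 2 * s + 1 + z) - p = (3 * p + 2 * s + z) + 1 := by omega
  rw [e1, e2, e3]
  have d1 : Disjoint (Finset.Icc (p + 1) (2 * p + s))
      (Finset.Icc ((2 * p + s + z) + 1) (3 * p + 2 * s + z)) := by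
    rw [Finset.disjoint_left]
    intro t h1 h2
    rw [mem_Icc] at h1 h2
    omega
  have d2 : Disjoint (Finset.Icc 1 p)
      (Finset.Icc ((3 * p + 2 * s + z) + 1) (2 * (2 * p + s))) := by
    rw [Finset.disjoint_left]
    intro t h1 h2
    rw [mem_Icc] at h1 h2
    omega
  rw [Finset.sum_union d1, Finset.sum_union d2]
  have f1 := sumF (2 * p + s) p (2 * p + s) (by omega) (by omega)
  have f2 := sumF (2 * p + s) (2 * p + s + z) (3 * p + 2 * s + z) (by omega) (by omega)
  have f3 := sumF (2 * p + s) 0 p (by omega) (by omega)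
  have f4 := sumF (2 * p + s) (3 * p + 2 * s + z) (2 * (2 * p + s)) (by omega) (by omega)
  rw [Nat.zero_add] at f3
  have h' : (2 * s * (4 * p + 2 * s + 1) : ℤ) < z * (z + 2 * s - 1) := by
    have e : ((z + 2 * s - 1 : ℕ) : ℤ) = z + 2 * s - 1 := by
      rw [Nat.cast_sub (by omega)]; push_cast; ring
    have := (Nat.cast_lt (α := ℤ)).2 h
    push_cast [e] at this
    exact this
  have goal : ∀ A1 A2 A3 A4 : ℤ,
      2 * A1 = ((2 * p + s : ℕ) : ℤ) * (4 * ((2 * p + s : ℕ) : ℤ) + 1 - ((2 * p + s : ℕ) : ℤ))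
        - (p : ℤ) * (4 * ((2 * p + s : ℕ) : ℤ) + 1 - (p : ℤ)) →
      2 * A2 = ((3 * p + 2 * s + z : ℕ) : ℤ) *
        (4 * ((2 * p + s : ℕ) : ℤ) + 1 - ((3 * p + 2 * s + z : ℕ) : ℤ))
        - ((2 * p + s + z : ℕ) : ℤ) *
        (4 * ((2 * p + s : ℕ) : ℤ) + 1 - ((2 * p + s + z : ℕ) : ℤ)) →
      2 * A3 = (p : ℤ) * (4 * ((2 * p + s : ℕ) : ℤ) + 1 - (p : ℤ))
        - ((0 : ℕ) : ℤ) * (4 * ((2 * p + s : ℕ) : ℤ) + 1 - ((0 : ℕ) : ℤ)) →
      2 * A4 = ((2 * (2 * p + s) : ℕ) : ℤ) *
        (4 * ((2 * p + s : ℕ) : ℤ) + 1 - ((2 * (2 * p + s) : ℕ) : ℤ))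
        - ((3 * p + 2 * s + z : ℕ) : ℤ) *
        (4 * ((2 * p + s : ℕ) : ℤ) + 1 - ((3 * p + 2 * s + z : ℕ) : ℤ)) →
      A1 + A2 < A3 + A4 := by
    intro A1 A2 A3 A4 g1 g2 g3 g4
    push_cast at g1 g2 g3 g4
    nlinarith
  have := goal _ _ _ _ f1 f2 f3 f4
  exact_mod_cast this

end Pool.Agent.H187F
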