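import Pool.Agent.H187F.Lower

set_option autoImplicit false

namespace Pool.Agent.H187F

open Finset

open Classical

set_option linter.unusedSectionVars false

/-- symmetric sets of residues -/
theorem exists_sym (n x : ℕ) (hx : x ≤ n) (hpar : Even x ∨ Even (n + 1)) :
    ∃ P : Finset (ZMod (n + 1)), (∀ d, d ∈ P → -d ∈ P) ∧ (0 : ZMod (n + 1)) ∉ P ∧ P.card = x := by
  set T : Finset ℕ := (Finset.Icc 1 (x / 2) ∪ Finset.Icc (n + 1 - x / 2) n) ∪
    (if Odd x then {(n + 1) / 2} else ∅) with hT
  have hTlt : ∀ d ∈ T, 1 ≤ d ∧ d < n + 1 := by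
    intro d hd
    rw [hT, mem_union, mem_union, mem_Icc, mem_Icc] at hd
    rcases hd with (h | h) | h
    · omega
    · omega
    · split_ifs at h with ho
      · rw [mem_singleton] at h
        have : 1 ≤ x := ho.pos
        omega
      · simp at h
  have hTneg : ∀ d ∈ T, n + 1 - d ∈ T := by
    intro d hd
    have hd2 := hTlt d hd
    rw [hT, mem_union, mem_union, mem_Icc, mem_Icc] at hd ⊢
    rcases hd with (h | h) | h
    · left; right; omega
    · left; left; omega
    · split_ifs at h ⊢ with ho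
      · rw [mem_singleton] at h ⊢
        rcases hpar with hp | hp
        · exact absurd hp (Nat.not_even_iff_odd.2 ho)
        · obtain ⟨c, hc⟩ := hp
          right; omega
      · simp at h
  have hTcard : T.card = x := by
    have h1 : (Finset.Icc 1 (x / 2) ∪ Finset.Icc (n + 1 - x / 2) n).card = 2 * (x / 2) := by
      rw [Finset.card_union_of_disjoint]
      · rw [Nat.card_Icc, Nat.card_Icc]; omega
      · rw [Finset.disjoint_left]
        intro d h1 h2
        rw [mem_Icc] at h1 h2
        omega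
    by_cases ho : Odd x
    · rw [hT, if_pos ho, Finset.card_union_of_disjoint, h1, card_singleton]
      · obtain ⟨c, hc⟩ := ho; omega
      · rw [Finset.disjoint_singleton_right, mem_union, mem_Icc, mem_Icc]
        have hp : Even (n + 1) := by
          rcases hpar with hp | hp
          · exact absurd hp (Nat.not_even_iff_odd.2 ho)
          · exact hp
        obtain ⟨c, hc⟩ := hp
        obtain ⟨e, he⟩ := ho
        omega
    · rw [hT, if_neg ho, union_empty, h1]
      rw [Nat.not_odd_iff_even] at ho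
      obtain ⟨c, hc⟩ := ho
      omega
  refine ⟨T.image (fun d : ℕ => (d : ZMod (n + 1))), ?_, ?_, ?_⟩
  · intro d hd
    rw [mem_image] at hd ⊢
    obtain ⟨e, he, rfl⟩ := hd
    refine ⟨n + 1 - e, hTneg e he, ?_⟩
    have h1 := (hTlt e he).2
    rw [Nat.cast_sub h1.le, ZMod.natCast_self, zero_sub]
  · intro h
    rw [mem_image] at h
    obtain ⟨e, he, he2⟩ := h
    have h1 := hTlt e he
    rw [ZMod.natCast_eq_zero_iff] at he2
    have := Nat.le_of_dvd (by omega) he2
    omega
  · rw [Finset.card_image_of_injOn, hTcard]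
    intro d hd e he hde
    have h1 := hTlt d hd
    have h2 := hTlt e he
    have h3 : (d : ZMod (n + 1)) = (e : ZMod (n + 1)) := hde
    rw [ZMod.natCast_eq_natCast_iff', Nat.mod_eq_of_lt h1.2, Nat.mod_eq_of_lt h2.2] at h3
    exact h3

section graph

variable {n k : ℕ} (P : Finset (ZMod (n + 1)))

/-- the cover of the complete graph -/
def cov (p q : ZMod (n + 1) × ZMod (k + 1)) : Prop :=
  (p.1.val < q.1.val ∧ q.2 = p.2 + 1) ∨ (q.1.val < p.1.val ∧ p.2 = q.2 + 1)

theorem cov_symm {p q : ZMod (n + 1) × ZMod (k + 1)} (h : cov p q) : cov q p := by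
  rcases h with h | h
  · exact Or.inr h
  · exact Or.inl h

theorem cov_ne {p q : ZMod (n + 1) × ZMod (k + 1)} (h : cov p q) : p.1 ≠ q.1 := by
  intro h1
  rcases h with h | h
  · rw [h1] at h; omega
  · rw [h1] at h; omega

/-- blue graph -/
def bg (hP : ∀ d, d ∈ P → -d ∈ P) : SimpleGraph (ZMod (n + 1) × ZMod (k + 1)) where
  Adj p q := (p.1 = q.1 ∧ p.2 ≠ q.2) ∨ (cov p q ∧ q.1 - p.1 ∈ P)
  symm := ⟨by
    rintro p q (h | h)
    · exact Or.inl ⟨h.1.symm, h.2.symm⟩
    · refine Or.inr ⟨cov_symm h.1, ?_⟩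
      have := hP _ h.2
      rwa [neg_sub] at this⟩
  loopless := ⟨by
    rintro p (h | h)
    · exact h.2 rfl
    · exact cov_ne h.1 rfl⟩

/-- red graph -/
def rg (hP : ∀ d, d ∈ P → -d ∈ P) : SimpleGraph (ZMod (n + 1) × ZMod (k + 1)) where
  Adj p q := cov p q ∧ q.1 - p.1 ∉ P
  symm := ⟨by
    rintro p q h
    refine ⟨cov_symm h.1, fun h2 => h.2 ?_⟩
    have := hP _ h2
    rwa [neg_sub] at this⟩
  loopless := ⟨by
    rintro p h
    exact cov_ne h.1 rfl⟩

/-- the neighbour of `p` in the fibre over `j` -/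
def nb (p : ZMod (n + 1) × ZMod (k + 1)) (j : ZMod (n + 1)) : ZMod (n + 1) × ZMod (k + 1) :=
  (j, if p.1.val < j.val then p.2 + 1 else p.2 - 1)

theorem cov_iff (p q : ZMod (n + 1) × ZMod (k + 1)) : cov p q ↔ p.1 ≠ q.1 ∧ q = nb p q.1 := by
  constructor
  · intro h
    refine ⟨cov_ne h, ?_⟩
    unfold nb
    rcases h with h | h
    · rw [if_pos h.1, ← h.2]
    · rw [if_neg (by omega), h.2, add_sub_cancel_right]
  · rintro ⟨h1, h2⟩
    have h3 : p.1.val ≠ q.1.val := fun h => h1 (ZMod.val_injective _ h)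
    unfold nb at h2
    rcases Nat.lt_or_gt_of_ne h3 with h | h
    · left
      refine ⟨h, ?_⟩
      rw [if_pos h] at h2
      exact congrArg Prod.snd h2
    · right
      refine ⟨h, ?_⟩
      rw [if_neg (by omega)] at h2
      have := congrArg Prod.snd h2
      simp only at this
      rw [this, sub_add_cancel]

theorem nb_inj (p : ZMod (n + 1) × ZMod (k + 1)) : Function.Injective (nb p) := by
  intro i j h
  exact congrArg Prod.fst h

theorem card_shift (i : ZMod (n + 1)) (Q : Finset (ZMod (n + 1))) :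
    (univ.filter (fun j => j - i ∈ Q)).card = Q.card := by
  refine Finset.card_bij (fun j _ => j - i) ?_ ?_ ?_
  · intro j hj
    exact (mem_filter.1 hj).2
  · intro j _ l _ h
    exact sub_left_injective h
  · intro d hd
    exact ⟨d + i, mem_filter.2 ⟨mem_univ _, by rwa [add_sub_cancel_right]⟩, by simp⟩

theorem rg_degree (hP : ∀ d, d ∈ P → -d ∈ P) (h0 : (0 : ZMod (n + 1)) ∉ P)
    (p : ZMod (n + 1) × ZMod (k + 1)) : (rg (k := k) P hP).degree p = n - P.card := by
  have h1 : (rg (k := k) P hP).neighborFinset p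
      = (univ.filter (fun j => j - p.1 ∈ (insert 0 P)ᶜ)).image (nb p) := by
    ext q
    rw [SimpleGraph.mem_neighborFinset, mem_image]
    constructor
    · rintro ⟨h1, h2⟩
      obtain ⟨h3, h4⟩ := (cov_iff p q).1 h1
      refine ⟨q.1, ?_, h4.symm⟩
      rw [mem_filter, mem_compl, mem_insert]
      refine ⟨mem_univ _, ?_⟩
      rintro (h | h)
      · exact h3 (sub_eq_zero.1 h).symm
      · exact h2 h
    · rintro ⟨j, hj, rfl⟩
      rw [mem_filter, mem_compl, mem_insert] at hj
      have hj2 := hj.2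
      push Not at hj2
      refine ⟨(cov_iff _ _).2 ⟨?_, rfl⟩, hj2.2⟩
      intro h
      exact hj2.1 (sub_eq_zero.2 h.symm)
  rw [← SimpleGraph.card_neighborFinset_eq_degree, h1, Finset.card_image_of_injective _ (nb_inj p),
    card_shift, Finset.card_compl, Finset.card_insert_of_notMem h0, ZMod.card]
  omega

theorem bg_degree (hP : ∀ d, d ∈ P → -d ∈ P) (h0 : (0 : ZMod (n + 1)) ∉ P)
    (p : ZMod (n + 1) × ZMod (k + 1)) : (bg (k := k) P hP).degree p = k + P.card := by
  have h1 : (bg (k := k) P hP).neighborFinset p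
      = ((univ.erase p.2).image (fun s => (p.1, s))) ∪
        (univ.filter (fun j => j - p.1 ∈ P)).image (nb p) := by
    ext q
    rw [SimpleGraph.mem_neighborFinset, mem_union, mem_image, mem_image]
    constructor
    · rintro (h | ⟨h1, h2⟩)
      · left
        refine ⟨q.2, ?_, ?_⟩
        · rw [mem_erase]; exact ⟨h.2.symm, mem_univ _⟩
        · rw [h.1]
      · right
        obtain ⟨h3, h4⟩ := (cov_iff p q).1 h1
        exact ⟨q.1, mem_filter.2 ⟨mem_univ _, h2⟩, h4.symm⟩
    · rintro (⟨s, hs, rfl⟩ | ⟨j, hj, rfl⟩)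
      · left
        rw [mem_erase] at hs
        exact ⟨rfl, hs.1.symm⟩
      · right
        have hj2 := (mem_filter.1 hj).2
        refine ⟨(cov_iff _ _).2 ⟨?_, rfl⟩, hj2⟩
        intro h
        apply h0
        have : j - p.1 = 0 := sub_eq_zero.2 h.symm
        rwa [this] at hj2
  have hdis : Disjoint ((univ.erase p.2).image (fun s => (p.1, s)))
      ((univ.filter (fun j => j - p.1 ∈ P)).image (nb p)) := by
    rw [Finset.disjoint_left]
    intro q h1 h2
    rw [mem_image] at h1 h2
    obtain ⟨s, _, rfl⟩ := h1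
    obtain ⟨j, hj, hj2⟩ := h2
    have h3 : j = p.1 := congrArg Prod.fst hj2
    rw [mem_filter, h3, sub_self] at hj
    exact h0 hj.2
  rw [← SimpleGraph.card_neighborFinset_eq_degree, h1, Finset.card_union_of_disjoint hdis,
    Finset.card_image_of_injective _ (nb_inj p), card_shift, Finset.card_image_of_injective,
    Finset.card_erase_of_mem (mem_univ _), Finset.card_univ, ZMod.card]
  · omega
  · intro s t h
    exact congrArg Prod.snd h

theorem disj_bg_rg (hP : ∀ d, d ∈ P → -d ∈ P) (p q : ZMod (n + 1) × ZMod (k + 1))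
    (h : (bg (k := k) P hP).Adj p q) : ¬ (rg (k := k) P hP).Adj p q := by
  rintro ⟨h1, h2⟩
  rcases h with h | h
  · exact cov_ne h1 h.1
  · exact h2 h.2

theorem no_tri [Fact (1 ≤ k)] (v x y : ZMod (n + 1) × ZMod (k + 1))
    (hx : (v.1 = x.1 ∧ v.2 ≠ x.2) ∨ cov v x) (hy : (v.1 = y.1 ∧ v.2 ≠ y.2) ∨ cov v y)
    (hxy : cov x y) : False := by
  have hk : (1 : ZMod (k + 1)) ≠ 0 := by
    have : Fact (1 < k + 1) := ⟨by have := Fact.out (p := 1 ≤ k); omega⟩
    exact one_ne_zero
  rcases hx with hx | hx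
  · rcases hy with hy | hy
    · exact cov_ne hxy (hx.1.symm.trans hy.1)
    · rcases hy with ⟨a, a2⟩ | ⟨a, a2⟩
      · rcases hxy with ⟨c, c2⟩ | ⟨c, c2⟩
        · exact hx.2 (add_right_cancel (a2.symm.trans c2))
        · rw [← hx.1] at c; omega
      · rcases hxy with ⟨c, c2⟩ | ⟨c, c2⟩
        · rw [← hx.1] at c; omega
        · exact hx.2 (a2.trans c2.symm)
  · rcases hy with hy | hy
    · rcases hx with ⟨a, a2⟩ | ⟨a, a2⟩
      · rcases hxy with ⟨c, c2⟩ | ⟨c, c2⟩
        · rw [← hy.1] at c; omega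
        · exact hy.2 (add_right_cancel (a2.symm.trans c2))
      · rcases hxy with ⟨c, c2⟩ | ⟨c, c2⟩
        · exact hy.2 (a2.trans c2.symm)
        · rw [← hy.1] at c; omega
    · rcases hx with ⟨a, a2⟩ | ⟨a, a2⟩ <;> rcases hy with ⟨b, b2⟩ | ⟨b, b2⟩ <;>
        rcases hxy with ⟨c, c2⟩ | ⟨c, c2⟩
      · rw [a2, b2] at c2
        exact hk (by linear_combination -c2)
      · rw [a2, b2] at c2
        exact hk (by linear_combination -c2)
      · omega
      · -- y < v < x
        rw [a2, b2] at c2
        exact hk (by linear_combination c2)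
      · -- x < v < y
        rw [b2, a2] at c2
        exact hk (by linear_combination c2)
      · omega
      · rw [a2] at b2
        rw [c2] at b2
        exact hk (by linear_combination -b2)
      · rw [a2] at b2
        rw [c2] at b2
        exact hk (by linear_combination b2)

end graph

end Pool.Agent.H187F
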