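import Pool.Agent.H187F.Cons

set_option autoImplicit false

namespace Pool.Agent.H187F

open Finset

open Classical

set_option linter.unusedSectionVars false

theorem adj_or {n k : ℕ} (P : Finset (ZMod (n + 1))) (hP : ∀ d, d ∈ P → -d ∈ P)
    (p q : ZMod (n + 1) × ZMod (k + 1)) :
    ((bg (k := k) P hP).Adj p q ∨ (rg (k := k) P hP).Adj p q) ↔
      ((p.1 = q.1 ∧ p.2 ≠ q.2) ∨ cov p q) := by
  constructor
  · rintro ((h | h) | h)
    · exact Or.inl h
    · exact Or.inr h.1
    · exact Or.inr h.1
  · rintro (h | h)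
    · exact Or.inl (Or.inl h)
    · by_cases h1 : q.1 - p.1 ∈ P
      · exact Or.inl (Or.inr ⟨h, h1⟩)
      · exact Or.inr ⟨h, h1⟩

theorem cons_flip {n k : ℕ} (hk : 1 ≤ k) (P : Finset (ZMod (n + 1))) (hP : ∀ d, d ∈ P → -d ∈ P)
    (h0 : (0 : ZMod (n + 1)) ∉ P) (hPn : P.card ≤ n)
    (hc : n - P.card < P.card + (k + 1).choose 2)
    (v : ZMod (n + 1) × ZMod (k + 1)) :
    (near (bg (k := k) P hP) (rg (k := k) P hP) (rg (k := k) P hP) v).card
      < (near (bg (k := k) P hP) (rg (k := k) P hP) (bg (k := k) P hP) v).card := by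
  haveI : Fact (1 ≤ k) := ⟨hk⟩
  set B := bg (k := k) P hP with hB
  set R := rg (k := k) P hP with hR
  have hd : ∀ x y, B.Adj x y → ¬ R.Adj x y := disj_bg_rg P hP
  have h1 := near_card B R B hd (fun x y => by
    rw [add_mul, ind_mul_self, mul_comm (ind R x y), ind_disj hd, add_zero]) v
  have h2 := near_card B R R hd (fun x y => by
    rw [add_mul, ind_mul_self, ind_disj hd, zero_add]) v
  rw [bg_degree P hP h0 v] at h1
  rw [rg_degree P hP h0 v] at h2
  have gnn : ∀ x y, 0 ≤ ind B x y + ind R x y := fun x y =>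
    add_nonneg (ind_nonneg _ _ _) (ind_nonneg _ _ _)
  have gz : ∀ x y, ¬ (B.Adj x y ∨ R.Adj x y) → ind B x y + ind R x y = 0 := by
    intro x y h
    push Not at h
    simp [ind, h.1, h.2]
  have h3 : ∑ x, ∑ y, (ind B v x + ind R v x) * (ind B v y + ind R v y) * ind R x y = 0 := by
    refine Finset.sum_eq_zero fun x _ => Finset.sum_eq_zero fun y _ => ?_
    by_cases a1 : (B.Adj v x ∨ R.Adj v x)
    · by_cases a2 : (B.Adj v y ∨ R.Adj v y)
      · by_cases a3 : R.Adj x y
        · exact (no_tri v x y ((adj_or P hP v x).1 a1) ((adj_or P hP v y).1 a2) a3.1).elim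
        · simp [ind, a3]
      · rw [gz v y a2]; ring
    · rw [gz v x a1]; ring
  have h4 : (k : ℤ) * (k - 1) ≤
      ∑ x, ∑ y, (ind B v x + ind R v x) * (ind B v y + ind R v y) * ind B x y := by
    set S : Finset (ZMod (n + 1) × ZMod (k + 1)) :=
      (univ.erase v.2).image (fun s => (v.1, s)) with hS
    have hinj : Function.Injective
        (fun s : ZMod (k + 1) => ((v.1, s) : ZMod (n + 1) × ZMod (k + 1))) :=
      fun s t h => congrArg Prod.snd h
    have hSc : S.card = k := by
      rw [hS, Finset.card_image_of_injective _ hinj, Finset.card_erase_of_mem (mem_univ _),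
        Finset.card_univ, ZMod.card, Nat.add_sub_cancel]
    have hSB : ∀ x ∈ S, B.Adj v x := by
      intro x hx
      rw [hS, mem_image] at hx
      obtain ⟨s, hs, rfl⟩ := hx
      exact Or.inl ⟨rfl, (mem_erase.1 hs).1.symm⟩
    have hSS : ∀ x ∈ S, ∀ y ∈ S, x ≠ y → B.Adj x y := by
      intro x hx y hy hxy
      rw [hS, mem_image] at hx hy
      obtain ⟨s, hs, rfl⟩ := hx
      obtain ⟨t, ht, rfl⟩ := hy
      refine Or.inl ⟨rfl, fun h => hxy ?_⟩
      have h' : s = t := h
      rw [h']
    have hF : ∀ x y, 0 ≤ (ind B v x + ind R v x) * (ind B v y + ind R v y) * ind B x y :=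
      fun x y => mul_nonneg (mul_nonneg (gnn _ _) (gnn _ _)) (ind_nonneg _ _ _)
    have gone : ∀ x ∈ S, 1 ≤ ind B v x + ind R v x := by
      intro x hx
      rw [ind_one B (hSB x hx)]
      have := ind_nonneg R v x
      linarith
    have hrow : ∀ x ∈ S, (k - 1 : ℤ) ≤
        ∑ y, (ind B v x + ind R v x) * (ind B v y + ind R v y) * ind B x y := by
      intro x hx
      calc (k - 1 : ℤ) = ∑ y ∈ S.erase x, (1 : ℤ) := by
            rw [Finset.sum_const, Finset.card_erase_of_mem hx, hSc, nsmul_eq_mul, mul_one]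
            push_cast [Nat.cast_sub hk]
            ring
        _ ≤ ∑ y ∈ S.erase x, (ind B v x + ind R v x) * (ind B v y + ind R v y) * ind B x y := by
            refine Finset.sum_le_sum fun y hy => ?_
            rw [mem_erase] at hy
            rw [ind_one B (hSS x hx y hy.2 hy.1.symm), mul_one]
            have a := gone x hx
            have b := gone y hy.2
            nlinarith
        _ ≤ _ := Finset.sum_le_sum_of_subset_of_nonneg (Finset.subset_univ _)
            (fun y _ _ => hF x y)
    calc (k : ℤ) * (k - 1) = ∑ x ∈ S, (k - 1 : ℤ) := by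
          rw [Finset.sum_const, hSc, nsmul_eq_mul]
      _ ≤ ∑ x ∈ S, ∑ y, (ind B v x + ind R v x) * (ind B v y + ind R v y) * ind B x y :=
          Finset.sum_le_sum hrow
      _ ≤ _ := Finset.sum_le_sum_of_subset_of_nonneg (Finset.subset_univ _)
          (fun x _ _ => Finset.sum_nonneg fun y _ => hF x y)
  rw [h3] at h2
  have h5 : (2 * (k + 1).choose 2 : ℤ) = (k + 1) * k := by
    have := Nat.choose_two_right (k + 1)
    have h6 : 2 * (k + 1).choose 2 = (k + 1) * k := by
      rw [Nat.choose_two_right, Nat.add_sub_cancel, Nat.mul_div_cancel']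
      have := Nat.even_mul_succ_self k
      rw [mul_comm]
      exact this.two_dvd
    exact_mod_cast h6
  have h6 : ((n - P.card : ℕ) : ℤ) + 1 ≤ P.card + (k + 1).choose 2 := by exact_mod_cast hc
  have h7 : (2 * (near B R R v).card : ℤ) < 2 * (near B R B v).card := by
    rw [h1, h2]
    push_cast at h6 ⊢
    nlinarith
  have h8 : ((near B R R v).card : ℤ) < (near B R B v).card := by linarith
  exact_mod_cast h8

end Pool.Agent.H187F
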