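import Mathlib

set_option autoImplicit false

namespace Pool.Agent.H187F

open Finset

section pairs
open Classical

variable {V : Type} [Fintype V]

/-- twice the number of edges inside a set is the number of ordered pairs -/
theorem two_edges (H : SimpleGraph V) (S : V → Prop) :
    2 * (H.edgeFinset.filter (fun e => ∀ x ∈ e, S x)).card
      = ∑ x, ∑ y, if (S x ∧ S y ∧ H.Adj x y) then 1 else 0 := by
  let K : SimpleGraph V :=
    { Adj := fun x y => S x ∧ S y ∧ H.Adj x y
      symm := ⟨fun x y h => ⟨h.2.1, h.1, h.2.2.symm⟩⟩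
      loopless := ⟨fun x h => H.loopless.irrefl x h.2.2⟩ }
  have h1 : K.edgeFinset = H.edgeFinset.filter (fun e => ∀ x ∈ e, S x) := by
    ext e
    induction e using Sym2.ind with
    | _ x y =>
      simp only [SimpleGraph.mem_edgeFinset, SimpleGraph.mem_edgeSet, mem_filter, Sym2.mem_iff,
        forall_eq_or_imp, forall_eq]
      constructor
      · rintro ⟨h1, h2, h3⟩
        exact ⟨h3, h1, h2⟩
      · rintro ⟨h3, h1, h2⟩
        exact ⟨h1, h2, h3⟩
  rw [← h1, ← SimpleGraph.sum_degrees_eq_twice_card_edges]
  refine Finset.sum_congr rfl fun x _ => ?_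
  rw [← SimpleGraph.card_neighborFinset_eq_degree, Finset.sum_boole]
  simp only [Nat.cast_id]
  congr 1
  ext y
  simp [K]

end pairs

end Pool.Agent.H187F
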