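import Pool.Agent.H187F.Count

set_option autoImplicit false

namespace Pool.Agent.H187F

open Finset

open Classical

set_option linter.unusedSectionVars false

variable {V : Type} [Fintype V]

/-- indicator of adjacency -/
noncomputable def ind (H : SimpleGraph V) (x y : V) : ℤ := if H.Adj x y then 1 else 0

theorem ind_symm (H : SimpleGraph V) (x y : V) : ind H x y = ind H y x := by
  unfold ind
  simp only [H.adj_comm]

theorem ind_self (H : SimpleGraph V) (x : V) : ind H x x = 0 := by
  simp [ind]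

theorem ind_nonneg (H : SimpleGraph V) (x y : V) : 0 ≤ ind H x y := by
  unfold ind; split_ifs <;> simp

theorem ind_le_one (H : SimpleGraph V) (x y : V) : ind H x y ≤ 1 := by
  unfold ind; split_ifs <;> simp

theorem ind_mul_self (H : SimpleGraph V) (x y : V) : ind H x y * ind H x y = ind H x y := by
  unfold ind; split_ifs <;> simp

theorem ind_one (H : SimpleGraph V) {x y : V} (h : H.Adj x y) : ind H x y = 1 := by
  simp [ind, h]

theorem sum_ind (H : SimpleGraph V) (x : V) : ∑ y, ind H x y = H.degree x := by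
  unfold ind
  rw [Finset.sum_boole, ← SimpleGraph.card_neighborFinset_eq_degree]
  congr 2
  ext y
  simp

theorem ind_disj {B R : SimpleGraph V} (h : ∀ x y, B.Adj x y → ¬ R.Adj x y) (x y : V) :
    ind B x y * ind R x y = 0 := by
  unfold ind
  by_cases h1 : B.Adj x y
  · simp [h1, h x y h1]
  · simp [h1]

/-- edges of `H` in the closed neighbourhood of `v` in `B ⊔ R` -/
noncomputable def near (B R H : SimpleGraph V) (v : V) : Finset (Sym2 V) :=
  H.edgeFinset.filter (fun e => ∀ x ∈ e, x = v ∨ (B ⊔ R).Adj v x)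

theorem near_card (B R H : SimpleGraph V) (hd : ∀ x y, B.Adj x y → ¬ R.Adj x y)
    (hH : ∀ x y, (ind B x y + ind R x y) * ind H x y = ind H x y) (v : V) :
    (2 * (near B R H v).card : ℤ) = 2 * H.degree v +
      ∑ x, ∑ y, (ind B v x + ind R v x) * (ind B v y + ind R v y) * ind H x y := by
  have h1 := two_edges H (fun x => x = v ∨ (B ⊔ R).Adj v x)
  have h2 : (2 * (near B R H v).card : ℤ) = ∑ x, ∑ y,
      ((if x = v then 1 else 0) + (ind B v x + ind R v x)) *
      ((if y = v then 1 else 0) + (ind B v y + ind R v y)) * ind H x y := by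
    have h1' : (2 * (near B R H v).card : ℕ) = ∑ x, ∑ y,
        if ((x = v ∨ (B ⊔ R).Adj v x) ∧ (y = v ∨ (B ⊔ R).Adj v y) ∧ H.Adj x y) then 1 else 0 := by
      unfold near
      convert h1
    have h1c : (2 * (near B R H v).card : ℤ) = ((2 * (near B R H v).card : ℕ) : ℤ) := by
      push_cast; ring
    rw [h1c, h1']
    push_cast
    have key : ∀ x, ((if x = v then 1 else 0) + (ind B v x + ind R v x) : ℤ)
        = if (x = v ∨ (B ⊔ R).Adj v x) then 1 else 0 := by
      intro x
      unfold ind
      by_cases hx : x = v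
      · subst hx
        simp
      · by_cases hb : B.Adj v x
        · simp [hx, hb, hd v x hb]
        · by_cases hr : R.Adj v x
          · simp [hx, hb, hr]
          · simp [hx, hb, hr]
    refine Finset.sum_congr rfl fun x _ => Finset.sum_congr rfl fun y _ => ?_
    rw [key x, key y]
    unfold ind
    by_cases a1 : (x = v ∨ (B ⊔ R).Adj v x)
    · by_cases a2 : (y = v ∨ (B ⊔ R).Adj v y)
      · by_cases a3 : H.Adj x y
        · rw [if_pos a1, if_pos a2, if_pos a3, if_pos ⟨a1, a2, a3⟩]; simp
        · rw [if_pos a1, if_pos a2, if_neg a3, if_neg (fun h => a3 h.2.2)]; simp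
      · rw [if_neg a2, if_neg (fun h => a2 h.2.1)]; simp
    · rw [if_neg a1, if_neg (fun h => a1 h.1)]; simp
  rw [h2]
  have h3 : ∀ x y, ((if x = v then 1 else 0) + (ind B v x + ind R v x)) *
      ((if y = v then 1 else 0) + (ind B v y + ind R v y)) * ind H x y
      = (if x = v then (if y = v then ind H x y else 0) else 0)
        + (if x = v then (ind B v y + ind R v y) * ind H x y else 0)
        + (if y = v then (ind B v x + ind R v x) * ind H x y else 0)
        + (ind B v x + ind R v x) * (ind B v y + ind R v y) * ind H x y := by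
    intro x y
    split_ifs <;> ring
  simp_rw [h3, Finset.sum_add_distrib]
  have h4 : ∑ x, ∑ y, (if x = v then (if y = v then ind H x y else 0) else 0) = 0 := by
    rw [Finset.sum_eq_single v]
    · simp [ind_self]
    · intro x _ hx; simp [hx]
    · simp
  have h5 : ∑ x, ∑ y, (if x = v then (ind B v y + ind R v y) * ind H x y else 0)
      = H.degree v := by
    rw [Finset.sum_eq_single v]
    · simp only [if_true]
      simp_rw [hH]
      exact sum_ind H v
    · intro x _ hx; simp [hx]
    · simp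
  have h6 : ∑ x, ∑ y, (if y = v then (ind B v x + ind R v x) * ind H x y else 0)
      = H.degree v := by
    rw [Finset.sum_comm, Finset.sum_eq_single v]
    · simp only [if_true]
      rw [← sum_ind H v]
      refine Finset.sum_congr rfl fun x _ => ?_
      rw [ind_symm H x v]
      exact hH v x
    · intro x _ hx; simp [hx]
    · simp
  rw [h4, h5, h6]
  ring

theorem swap12 (F : V → V → V → ℤ) : ∑ v, ∑ x, ∑ y, F v x y = ∑ v, ∑ x, ∑ y, F x v y :=
  Finset.sum_comm

theorem swap23 (F : V → V → V → ℤ) : ∑ v, ∑ x, ∑ y, F v x y = ∑ v, ∑ x, ∑ y, F v y x :=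
  Finset.sum_congr rfl fun _ _ => Finset.sum_comm

theorem swap13 (F : V → V → V → ℤ) : ∑ v, ∑ x, ∑ y, F v x y = ∑ v, ∑ x, ∑ y, F y x v := by
  rw [swap12 F, swap23 (fun a b c => F b a c), swap12 (fun a b c => F c a b)]

theorem triple (β ρ : V → V → ℤ) (hβ : ∀ x y, β x y = β y x) (hρ : ∀ x y, ρ x y = ρ y x) :
    ∑ v, ∑ x, ∑ y, (β v x + ρ v x) * (β v y + ρ v y) * β x y
      - ∑ v, ∑ x, ∑ y, (β v x + ρ v x) * (β v y + ρ v y) * ρ x y
    = ∑ v, ∑ x, ∑ y, β v x * β v y * (β x y + ρ x y)
      - ∑ v, ∑ x, ∑ y, ρ v x * ρ v y * (β x y + ρ x y) := by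
  have e1 : ∑ v, ∑ x, ∑ y, β v x * ρ v y * β x y = ∑ v, ∑ x, ∑ y, β v x * β v y * ρ x y := by
    rw [swap12]
    refine Finset.sum_congr rfl fun v _ => Finset.sum_congr rfl fun x _ =>
      Finset.sum_congr rfl fun y _ => ?_
    rw [hβ x v]; ring
  have e2 : ∑ v, ∑ x, ∑ y, ρ v x * β v y * β x y = ∑ v, ∑ x, ∑ y, β v x * β v y * ρ x y := by
    rw [swap23, ← e1]
    refine Finset.sum_congr rfl fun v _ => Finset.sum_congr rfl fun x _ =>
      Finset.sum_congr rfl fun y _ => ?_
    rw [hβ y x]; ring
  have e3 : ∑ v, ∑ x, ∑ y, β v x * ρ v y * ρ x y = ∑ v, ∑ x, ∑ y, ρ v x * ρ v y * β x y := by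
    rw [swap13]
    refine Finset.sum_congr rfl fun v _ => Finset.sum_congr rfl fun x _ =>
      Finset.sum_congr rfl fun y _ => ?_
    rw [hβ y x, hρ y v, hρ x v]; ring
  have e4 : ∑ v, ∑ x, ∑ y, ρ v x * β v y * ρ x y = ∑ v, ∑ x, ∑ y, ρ v x * ρ v y * β x y := by
    rw [swap23, ← e3]
    refine Finset.sum_congr rfl fun v _ => Finset.sum_congr rfl fun x _ =>
      Finset.sum_congr rfl fun y _ => ?_
    rw [hρ y x]; ring
  have l1 : ∀ v x y, (β v x + ρ v x) * (β v y + ρ v y) * β x y
      = β v x * β v y * β x y + β v x * ρ v y * β x y + ρ v x * β v y * β x y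
        + ρ v x * ρ v y * β x y := by intros; ring
  have l2 : ∀ v x y, (β v x + ρ v x) * (β v y + ρ v y) * ρ x y
      = β v x * β v y * ρ x y + β v x * ρ v y * ρ x y + ρ v x * β v y * ρ x y
        + ρ v x * ρ v y * ρ x y := by intros; ring
  have l3 : ∀ v x y, β v x * β v y * (β x y + ρ x y)
      = β v x * β v y * β x y + β v x * β v y * ρ x y := by intros; ring
  have l4 : ∀ v x y, ρ v x * ρ v y * (β x y + ρ x y)
      = ρ v x * ρ v y * β x y + ρ v x * ρ v y * ρ x y := by intros; ring
  simp_rw [l1, l2, l3, l4, Finset.sum_add_distrib]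
  rw [e1, e2, e3, e4]
  ring

end Pool.Agent.H187F
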