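import Pool.Agent.H187F.Lower

set_option autoImplicit false

namespace Pool.Agent.H187F

open Finset

open Classical

set_option linter.unusedSectionVars false

variable {V : Type} [Fintype V]

theorem main_ineq (b r : ℕ) (B R : SimpleGraph V) (hd : ∀ x y, B.Adj x y → ¬ R.Adj x y)
    (hb : ∀ v, B.degree v = b) (hr : ∀ v, R.degree v = r)
    (hf : ∀ v, (near B R R v).card < (near B R B v).card) :
    2 * (Fintype.card V : ℤ) * (1 + r - b) +
      ∑ v, ∑ x, ∑ y, ind R v x * ind R v y * (ind B x y + ind R x y) ≤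
      ∑ v, ∑ x, ∑ y, ind B v x * ind B v y * (ind B x y + ind R x y) := by
  have h1 := fun v => near_card B R B hd (fun x y => by
    rw [add_mul, ind_mul_self, mul_comm (ind R x y), ind_disj hd, add_zero]) v
  have h2 := fun v => near_card B R R hd (fun x y => by
    rw [add_mul, ind_mul_self, ind_disj hd, zero_add]) v
  have h3 : ∀ v, (2 : ℤ) ≤ (2 * b + ∑ x, ∑ y, (ind B v x + ind R v x) * (ind B v y + ind R v y)
      * ind B x y) - (2 * r + ∑ x, ∑ y, (ind B v x + ind R v x) * (ind B v y + ind R v y)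
      * ind R x y) := by
    intro v
    have a1 := h1 v
    have a2 := h2 v
    rw [hb v] at a1
    rw [hr v] at a2
    have a3 : ((near B R R v).card : ℤ) + 1 ≤ (near B R B v).card := by exact_mod_cast hf v
    rw [← a1, ← a2]
    linarith
  have h4 : ∑ v : V, (2 : ℤ) ≤ ∑ v, ((2 * b + ∑ x, ∑ y, (ind B v x + ind R v x) *
      (ind B v y + ind R v y) * ind B x y) - (2 * r + ∑ x, ∑ y, (ind B v x + ind R v x) *
      (ind B v y + ind R v y) * ind R x y)) := Finset.sum_le_sum fun v _ => h3 v
  rw [Finset.sum_sub_distrib, Finset.sum_add_distrib, Finset.sum_add_distrib] at h4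
  simp only [Finset.sum_const, Finset.card_univ, nsmul_eq_mul] at h4
  have h5 := triple (ind B) (ind R) (ind_symm B) (ind_symm R)
  linarith

/-- indicator of the non-adjacent distinct pairs -/
noncomputable def opn (B R : SimpleGraph V) (x y : V) : ℤ :=
  if x = y ∨ B.Adj x y ∨ R.Adj x y then 0 else 1

theorem opn_nonneg (B R : SimpleGraph V) (x y : V) : 0 ≤ opn B R x y := by
  unfold opn; split_ifs <;> simp

theorem g_eq {B R : SimpleGraph V} (hd : ∀ x y, B.Adj x y → ¬ R.Adj x y) (x y : V) :
    ind B x y + ind R x y = 1 - (if x = y then 1 else 0) - opn B R x y := by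
  unfold ind opn
  by_cases h : x = y
  · subst h; simp
  · by_cases hb : B.Adj x y
    · simp [h, hb, hd x y hb]
    · by_cases hr : R.Adj x y
      · simp [h, hb, hr]
      · simp [h, hb, hr]

theorem angle {B R : SimpleGraph V} (hd : ∀ x y, B.Adj x y → ¬ R.Adj x y) (H : SimpleGraph V)
    (d : ℕ) (hH : ∀ v, H.degree v = d) :
    ∑ v, ∑ x, ∑ y, ind H v x * ind H v y * (ind B x y + ind R x y)
      = (Fintype.card V : ℤ) * (d * d - d) -
        ∑ v, ∑ x, ∑ y, ind H v x * ind H v y * opn B R x y := by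
  have h1 : ∀ v, ∑ x, ∑ y, ind H v x * ind H v y * (ind B x y + ind R x y)
      = (d * d - d : ℤ) - ∑ x, ∑ y, ind H v x * ind H v y * opn B R x y := by
    intro v
    have e : ∀ x y, ind H v x * ind H v y * (ind B x y + ind R x y)
        = ind H v x * ind H v y - (if x = y then ind H v x * ind H v y else 0)
          - ind H v x * ind H v y * opn B R x y := by
      intro x y
      rw [g_eq hd]
      split_ifs <;> ring
    simp_rw [e, Finset.sum_sub_distrib]
    congr 1
    congr 1
    · rw [← Finset.sum_mul_sum, sum_ind, hH]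
    · simp only [Finset.sum_ite_eq, Finset.mem_univ, if_true, ind_mul_self]
      rw [sum_ind, hH]
  simp_rw [h1]
  rw [Finset.sum_sub_distrib, Finset.sum_const, Finset.card_univ, nsmul_eq_mul]

theorem sum_opn {B R : SimpleGraph V} (hd : ∀ x y, B.Adj x y → ¬ R.Adj x y) (b r : ℕ)
    (hb : ∀ v, B.degree v = b) (hr : ∀ v, R.degree v = r) (x : V) :
    ∑ y, opn B R x y = (Fintype.card V : ℤ) - 1 - b - r := by
  have e : ∀ y, opn B R x y = 1 - (if x = y then 1 else 0) - ind B x y - ind R x y := by
    intro y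
    have := g_eq hd x y
    linarith
  simp_rw [e, Finset.sum_sub_distrib]
  rw [sum_ind, sum_ind, hb, hr]
  simp

/-- the general lower bound for the order -/
theorem lower_general (b r : ℕ) (B R : SimpleGraph V) [Nonempty V]
    (hd : ∀ x y, B.Adj x y → ¬ R.Adj x y)
    (hb : ∀ v, B.degree v = b) (hr : ∀ v, R.degree v = r)
    (hf : ∀ v, (near B R R v).card < (near B R B v).card) :
    (2 * r - b : ℤ) * (b + r + 1) + 2 ≤ r * (Fintype.card V : ℤ) := by
  have h1 := main_ineq b r B R hd hb hr hf
  rw [angle hd B b hb, angle hd R r hr] at h1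
  have h2 : 0 ≤ ∑ v, ∑ x, ∑ y, ind B v x * ind B v y * opn B R x y :=
    Finset.sum_nonneg fun v _ => Finset.sum_nonneg fun x _ => Finset.sum_nonneg fun y _ =>
      mul_nonneg (mul_nonneg (ind_nonneg _ _ _) (ind_nonneg _ _ _)) (opn_nonneg _ _ _ _)
  have h3 : ∑ v, ∑ x, ∑ y, ind R v x * ind R v y * opn B R x y
      ≤ (Fintype.card V : ℤ) * (((Fintype.card V : ℤ) - 1 - b - r) * r) := by
    have e1 : ∑ v, ∑ x, ∑ y, ind R v x * ind R v y * opn B R x y
        = ∑ x, ∑ y, opn B R x y * ∑ v, ind R v x * ind R v y := by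
      rw [Finset.sum_comm]
      refine Finset.sum_congr rfl fun x _ => ?_
      rw [Finset.sum_comm]
      refine Finset.sum_congr rfl fun y _ => ?_
      rw [Finset.mul_sum]
      exact Finset.sum_congr rfl fun v _ => by ring
    rw [e1]
    have e2 : ∀ x y, ∑ v, ind R v x * ind R v y ≤ r := by
      intro x y
      rw [← hr x, ← sum_ind R x]
      refine Finset.sum_le_sum fun v _ => ?_
      rw [ind_symm R v x]
      calc ind R x v * ind R v y ≤ ind R x v * 1 :=
            mul_le_mul_of_nonneg_left (ind_le_one _ _ _) (ind_nonneg _ _ _)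
        _ = ind R x v := mul_one _
    calc ∑ x, ∑ y, opn B R x y * ∑ v, ind R v x * ind R v y
        ≤ ∑ x : V, ∑ y : V, opn B R x y * r :=
          Finset.sum_le_sum fun x _ => Finset.sum_le_sum fun y _ =>
            mul_le_mul_of_nonneg_left (e2 x y) (opn_nonneg _ _ _ _)
      _ = ∑ x : V, (((Fintype.card V : ℤ) - 1 - b - r) * r) := by
          refine Finset.sum_congr rfl fun x _ => ?_
          rw [← Finset.sum_mul, sum_opn hd b r hb hr]
      _ = _ := by rw [Finset.sum_const, Finset.card_univ, nsmul_eq_mul]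
  have hn : (0 : ℤ) < Fintype.card V := by exact_mod_cast Fintype.card_pos
  have h4 : (Fintype.card V : ℤ) * (2 * (1 + r - b) + (r * r - r) - ((Fintype.card V : ℤ) - 1 - b - r) * r)
      ≤ (Fintype.card V : ℤ) * (b * b - b) := by nlinarith
  have h5 := le_of_mul_le_mul_left h4 hn
  nlinarith

/-- if the red degree is maximal, all blue angles are closed and no red angle is closed -/
theorem tight (b r : ℕ) (B R : SimpleGraph V) (hd : ∀ x y, B.Adj x y → ¬ R.Adj x y)
    (hb : ∀ v, B.degree v = b) (hr : ∀ v, R.degree v = r)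
    (hf : ∀ v, (near B R R v).card < (near B R B v).card)
    (hK : (b * b - b : ℤ) = 2 * (1 + r - b)) :
    (∀ v x y, B.Adj v x → B.Adj v y → x ≠ y → B.Adj x y ∨ R.Adj x y) ∧
    (∀ v x y, R.Adj v x → R.Adj v y → ¬ (B.Adj x y ∨ R.Adj x y)) := by
  have h1 := main_ineq b r B R hd hb hr hf
  rw [angle hd B b hb] at h1
  have p2 : ∀ v x y, 0 ≤ ind B v x * ind B v y * opn B R x y := fun v x y =>
    mul_nonneg (mul_nonneg (ind_nonneg _ _ _) (ind_nonneg _ _ _)) (opn_nonneg _ _ _ _)
  have p3 : ∀ v x y, 0 ≤ ind R v x * ind R v y * (ind B x y + ind R x y) := fun v x y =>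
    mul_nonneg (mul_nonneg (ind_nonneg _ _ _) (ind_nonneg _ _ _))
      (add_nonneg (ind_nonneg _ _ _) (ind_nonneg _ _ _))
  have h2 : 0 ≤ ∑ v, ∑ x, ∑ y, ind B v x * ind B v y * opn B R x y :=
    Finset.sum_nonneg fun v _ => Finset.sum_nonneg fun x _ => Finset.sum_nonneg fun y _ => p2 v x y
  have h3 : 0 ≤ ∑ v, ∑ x, ∑ y, ind R v x * ind R v y * (ind B x y + ind R x y) :=
    Finset.sum_nonneg fun v _ => Finset.sum_nonneg fun x _ => Finset.sum_nonneg fun y _ => p3 v x y
  rw [hK] at h1
  have h4 : ∑ v, ∑ x, ∑ y, ind B v x * ind B v y * opn B R x y = 0 := by linarith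
  have h5 : ∑ v, ∑ x, ∑ y, ind R v x * ind R v y * (ind B x y + ind R x y) = 0 := by linarith
  have zero : ∀ F : V → V → V → ℤ, (∀ v x y, 0 ≤ F v x y) → ∑ v, ∑ x, ∑ y, F v x y = 0 →
      ∀ v x y, F v x y = 0 := by
    intro F hF h v x y
    have a := (Finset.sum_eq_zero_iff_of_nonneg (fun v _ => Finset.sum_nonneg fun x _ =>
      Finset.sum_nonneg fun y _ => hF v x y)).1 h v (Finset.mem_univ v)
    have a2 := (Finset.sum_eq_zero_iff_of_nonneg (fun x _ =>
      Finset.sum_nonneg fun y _ => hF v x y)).1 a x (Finset.mem_univ x)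
    exact (Finset.sum_eq_zero_iff_of_nonneg (fun y _ => hF v x y)).1 a2 y (Finset.mem_univ y)
  have z1 := zero _ p2 h4
  have z2 := zero _ p3 h5
  constructor
  · intro v x y hx hy hxy
    by_contra hne
    have := z1 v x y
    rw [ind_one B hx, ind_one B hy] at this
    unfold opn at this
    rw [if_neg (by
      rintro (h | h | h)
      · exact hxy h
      · exact hne (Or.inl h)
      · exact hne (Or.inr h))] at this
    norm_num at this
  · intro v x y hx hy hxy
    have := z2 v x y
    rw [ind_one R hx, ind_one R hy] at this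
    have n1 := ind_nonneg B x y
    have n2 := ind_nonneg R x y
    rcases hxy with h | h
    · rw [ind_one B h] at this; linarith
    · rw [ind_one R h] at this; linarith

end Pool.Agent.H187F
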