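import Pool.Agent.H187F.Lower2

set_option autoImplicit false

namespace Pool.Agent.H187F

open Finset

open Classical

set_option linter.unusedSectionVars false

variable {V : Type} [Fintype V]

/-- number of common neighbours -/
noncomputable def cn (H : SimpleGraph V) (x y : V) : ℤ := ∑ v, ind H v x * ind H v y

theorem cn_nonneg (H : SimpleGraph V) (x y : V) : 0 ≤ cn H x y :=
  Finset.sum_nonneg fun v _ => mul_nonneg (ind_nonneg _ _ _) (ind_nonneg _ _ _)

theorem cn_le (H : SimpleGraph V) (d : ℕ) (hH : ∀ v, H.degree v = d) (x y : V) :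
    cn H x y ≤ d := by
  unfold cn
  rw [← hH x, ← sum_ind H x]
  refine Finset.sum_le_sum fun v _ => ?_
  rw [ind_symm H v x]
  calc ind H x v * ind H v y ≤ ind H x v * 1 :=
        mul_le_mul_of_nonneg_left (ind_le_one _ _ _) (ind_nonneg _ _ _)
    _ = ind H x v := mul_one _

theorem cn_self (H : SimpleGraph V) (d : ℕ) (hH : ∀ v, H.degree v = d) (x : V) :
    cn H x x = d := by
  unfold cn
  simp_rw [ind_mul_self]
  rw [← hH x, ← sum_ind H x]
  exact Finset.sum_congr rfl fun v _ => ind_symm _ _ _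

theorem sum_cn (H : SimpleGraph V) (f : V → V → ℤ) :
    ∑ v, ∑ x, ∑ y, ind H v x * ind H v y * f x y = ∑ x, ∑ y, cn H x y * f x y := by
  rw [Finset.sum_comm]
  refine Finset.sum_congr rfl fun x _ => ?_
  rw [Finset.sum_comm]
  refine Finset.sum_congr rfl fun y _ => ?_
  unfold cn
  rw [Finset.sum_mul]

/-- number of red-blue paths from `v` to `w` -/
noncomputable def mu (B R : SimpleGraph V) (v w : V) : ℤ := ∑ u, ind R v u * ind B u w

theorem mu_nonneg (B R : SimpleGraph V) (v w : V) : 0 ≤ mu B R v w :=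
  Finset.sum_nonneg fun v _ => mul_nonneg (ind_nonneg _ _ _) (ind_nonneg _ _ _)

theorem sum_mu (B R : SimpleGraph V) (b r : ℕ) (hb : ∀ v, B.degree v = b)
    (hr : ∀ v, R.degree v = r) (v : V) : ∑ w, mu B R v w = r * b := by
  unfold mu
  rw [Finset.sum_comm]
  simp_rw [← Finset.mul_sum, sum_ind, hb]
  rw [← Finset.sum_mul, sum_ind, hr]

theorem sum_mu_sq (B R : SimpleGraph V) :
    ∑ v, ∑ w, mu B R v w * mu B R v w = ∑ x, ∑ y, cn R x y * cn B x y := by
  have h1 : ∀ v w, mu B R v w * mu B R v w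
      = ∑ x, ∑ y, (ind R v x * ind R v y) * (ind B x w * ind B y w) := by
    intro v w
    unfold mu
    rw [Finset.sum_mul_sum]
    refine Finset.sum_congr rfl fun x _ => Finset.sum_congr rfl fun y _ => ?_
    ring
  simp_rw [h1]
  have h2 : ∀ v, ∑ w, ∑ x, ∑ y, (ind R v x * ind R v y) * (ind B x w * ind B y w)
      = ∑ x, ∑ y, ind R v x * ind R v y * cn B x y := by
    intro v
    rw [Finset.sum_comm]
    refine Finset.sum_congr rfl fun x _ => ?_
    rw [Finset.sum_comm]
    refine Finset.sum_congr rfl fun y _ => ?_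
    rw [← Finset.mul_sum]
    unfold cn
    congr 1
    refine Finset.sum_congr rfl fun w _ => ?_
    rw [ind_symm B x w, ind_symm B y w]
  simp_rw [h2]
  exact sum_cn R (cn B)

theorem sum_mu_sq_le (B R : SimpleGraph V) (b r : ℕ) (hd : ∀ x y, B.Adj x y → ¬ R.Adj x y)
    (hb : ∀ v, B.degree v = b) (hr : ∀ v, R.degree v = r) :
    ∑ v, ∑ w, mu B R v w * mu B R v w ≤ (Fintype.card V : ℤ) * (r * b)
      + b * ∑ v, ∑ x, ∑ y, ind R v x * ind R v y * (ind B x y + ind R x y)
      + r * ∑ v, ∑ x, ∑ y, ind B v x * ind B v y * opn B R x y := by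
  rw [sum_mu_sq, sum_cn, sum_cn]
  have h1 : ∀ x y, cn R x y * cn B x y ≤ (if x = y then (r * b : ℤ) else 0)
      + b * (cn R x y * (ind B x y + ind R x y)) + r * (cn B x y * opn B R x y) := by
    intro x y
    by_cases h : x = y
    · subst h
      rw [if_pos rfl, cn_self R r hr, cn_self B b hb]
      have a1 : (0 : ℤ) ≤ b * (r * (ind B x x + ind R x x)) :=
        mul_nonneg (by positivity) (mul_nonneg (by positivity)
          (add_nonneg (ind_nonneg _ _ _) (ind_nonneg _ _ _)))
      have a2 : (0 : ℤ) ≤ r * (b * opn B R x x) :=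
        mul_nonneg (by positivity) (mul_nonneg (by positivity) (opn_nonneg _ _ _ _))
      linarith
    · have hg := g_eq hd x y
      rw [if_neg h] at hg ⊢
      have e : cn R x y * cn B x y = cn R x y * cn B x y * (ind B x y + ind R x y)
          + cn R x y * cn B x y * opn B R x y := by
        rw [hg]; ring
      rw [e]
      have a1 := cn_le R r hr x y
      have a2 := cn_le B b hb x y
      have a3 := cn_nonneg R x y
      have a4 := cn_nonneg B x y
      have a5 : 0 ≤ ind B x y + ind R x y := add_nonneg (ind_nonneg _ _ _) (ind_nonneg _ _ _)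
      have a6 := opn_nonneg B R x y
      have b1 : cn R x y * cn B x y * (ind B x y + ind R x y)
          ≤ b * (cn R x y * (ind B x y + ind R x y)) := by
        have := mul_le_mul_of_nonneg_right a2 (mul_nonneg a3 a5)
        linarith
      have b2 : cn R x y * cn B x y * opn B R x y ≤ r * (cn B x y * opn B R x y) := by
        have := mul_le_mul_of_nonneg_right a1 (mul_nonneg a4 a6)
        linarith
      linarith
  calc ∑ x, ∑ y, cn R x y * cn B x y
      ≤ ∑ x, ∑ y, ((if x = y then (r * b : ℤ) else 0)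
      + b * (cn R x y * (ind B x y + ind R x y)) + r * (cn B x y * opn B R x y)) :=
        Finset.sum_le_sum fun x _ => Finset.sum_le_sum fun y _ => h1 x y
    _ = _ := by
        simp_rw [Finset.sum_add_distrib, Finset.mul_sum]
        congr 2
        simp [Finset.sum_const, Finset.card_univ]

/-- the weight of closed red angles and open blue angles -/
theorem defect (b r : ℕ) (B R : SimpleGraph V) (hd : ∀ x y, B.Adj x y → ¬ R.Adj x y)
    (hb : ∀ v, B.degree v = b) (hr : ∀ v, R.degree v = r)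
    (hf : ∀ v, (near B R R v).card < (near B R B v).card) :
    ∑ v, ∑ x, ∑ y, ind R v x * ind R v y * (ind B x y + ind R x y)
      + ∑ v, ∑ x, ∑ y, ind B v x * ind B v y * opn B R x y
      ≤ (Fintype.card V : ℤ) * (b * b + b - 2 - 2 * r) := by
  have h1 := main_ineq b r B R hd hb hr hf
  rw [angle hd B b hb] at h1
  linarith

theorem t_nonneg (B R H : SimpleGraph V) :
    0 ≤ ∑ v, ∑ x, ∑ y, ind H v x * ind H v y * (ind B x y + ind R x y) :=
  Finset.sum_nonneg fun v _ => Finset.sum_nonneg fun x _ => Finset.sum_nonneg fun y _ =>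
    mul_nonneg (mul_nonneg (ind_nonneg _ _ _) (ind_nonneg _ _ _))
      (add_nonneg (ind_nonneg _ _ _) (ind_nonneg _ _ _))

theorem o_nonneg (B R H : SimpleGraph V) :
    0 ≤ ∑ v, ∑ x, ∑ y, ind H v x * ind H v y * opn B R x y :=
  Finset.sum_nonneg fun v _ => Finset.sum_nonneg fun x _ => Finset.sum_nonneg fun y _ =>
    mul_nonneg (mul_nonneg (ind_nonneg _ _ _) (ind_nonneg _ _ _)) (opn_nonneg _ _ _ _)

/-- the lower bound from the Cauchy-Schwarz inequality -/
theorem lower_cs (b r : ℕ) (hbr : b < r) (B R : SimpleGraph V) [Nonempty V]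
    (hd : ∀ x y, B.Adj x y → ¬ R.Adj x y)
    (hb : ∀ v, B.degree v = b) (hr : ∀ v, R.degree v = r)
    (hf : ∀ v, (near B R R v).card < (near B R B v).card) :
    (r * b ^ 2 : ℤ) ≤ (Fintype.card V : ℤ) * (b ^ 2 + 2 * b - 2 - 2 * r) := by
  set n : ℤ := (Fintype.card V : ℤ) with hn
  have hnpos : 0 < n := by rw [hn]; exact_mod_cast Fintype.card_pos
  have h1 := sum_mu_sq_le B R b r hd hb hr
  have h2 := defect b r B R hd hb hr hf
  have t1 := t_nonneg B R R
  have t2 := o_nonneg B R B
  have hrpos : (0 : ℤ) < r := by exact_mod_cast (by omega : 0 < r)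
  have hbr' : (b : ℤ) ≤ r := by exact_mod_cast hbr.le
  set T1 := ∑ v, ∑ x, ∑ y, ind R v x * ind R v y * (ind B x y + ind R x y) with hT1
  set T2 := ∑ v, ∑ x, ∑ y, ind B v x * ind B v y * opn B R x y with hT2
  have h3 : ∑ v, ∑ w, mu B R v w * mu B R v w ≤ n * (r * (b ^ 2 + 2 * b - 2 - 2 * r)) := by
    have a1 : (b : ℤ) * T1 ≤ r * T1 := mul_le_mul_of_nonneg_right hbr' t1
    have a2 := mul_le_mul_of_nonneg_left h2 hrpos.le
    calc _ ≤ n * (r * b) + b * T1 + r * T2 := h1
      _ ≤ n * (r * b) + r * (T1 + T2) := by linarith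
      _ ≤ n * (r * b) + r * (n * (b * b + b - 2 - 2 * r)) := by linarith
      _ = _ := by ring
  have h4 : (∑ p : V × V, mu B R p.1 p.2) ^ 2
      ≤ (n * n) * ∑ p : V × V, mu B R p.1 p.2 ^ 2 := by
    have := sq_sum_le_card_mul_sum_sq (s := (univ : Finset (V × V)))
      (f := fun p => mu B R p.1 p.2)
    rw [Finset.card_univ, Fintype.card_prod] at this
    push_cast at this
    exact this
  rw [Fintype.sum_prod_type, Fintype.sum_prod_type] at h4
  simp only at h4
  simp_rw [sum_mu B R b r hb hr] at h4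
  rw [Finset.sum_const, Finset.card_univ, nsmul_eq_mul, ← hn] at h4
  have h5 : ∑ v, ∑ w, mu B R v w ^ 2 = ∑ v, ∑ w, mu B R v w * mu B R v w :=
    Finset.sum_congr rfl fun v _ => Finset.sum_congr rfl fun w _ => sq _
  rw [h5] at h4
  have h6 : (n * (r * b)) ^ 2 ≤ (n * n) * (n * (r * (b ^ 2 + 2 * b - 2 - 2 * r))) :=
    h4.trans (mul_le_mul_of_nonneg_left h3 (by positivity))
  have h7 : (n * n * r) * (r * b ^ 2 : ℤ) ≤ (n * n * r) * (n * (b ^ 2 + 2 * b - 2 - 2 * r)) := by
    calc (n * n * r) * (r * b ^ 2 : ℤ) = (n * (r * b)) ^ 2 := by ring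
      _ ≤ _ := h6
      _ = _ := by ring
  exact le_of_mul_le_mul_left h7 (by positivity)

/-- the lower bound near the extreme -/
theorem lower_near (b r : ℕ) (hbr : b + 2 ≤ r) (B R : SimpleGraph V) [Nonempty V]
    (hd : ∀ x y, B.Adj x y → ¬ R.Adj x y)
    (hb : ∀ v, B.degree v = b) (hr : ∀ v, R.degree v = r)
    (hf : ∀ v, (near B R R v).card < (near B R B v).card) :
    (2 + 2 * r * (b + 1) : ℤ) ≤ 2 * (Fintype.card V : ℤ) + r * (b ^ 2 + b - 2 - 2 * r) := by
  set n : ℤ := (Fintype.card V : ℤ) with hn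
  have hnpos : 0 < n := by rw [hn]; exact_mod_cast Fintype.card_pos
  have h1 := sum_mu_sq_le B R b r hd hb hr
  have h2 := defect b r B R hd hb hr hf
  have t1 := t_nonneg B R R
  have t2 := o_nonneg B R B
  have hrpos : (0 : ℤ) < r := by exact_mod_cast (by omega : 0 < r)
  have hbr' : (b + 2 : ℤ) ≤ r := by exact_mod_cast hbr
  set T1 := ∑ v, ∑ x, ∑ y, ind R v x * ind R v y * (ind B x y + ind R x y) with hT1
  set T2 := ∑ v, ∑ x, ∑ y, ind B v x * ind B v y * opn B R x y with hT2
  have hmv : ∀ v, mu B R v v = 0 := by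
    intro v
    unfold mu
    refine Finset.sum_eq_zero fun u _ => ?_
    rw [ind_symm B u v, mul_comm]
    exact ind_disj hd v u
  have h3 : ∀ v w, 2 * (if v = w then 1 else 0) + 2 * ind R v w + (3 * mu B R v w
      - mu B R v w * mu B R v w) - 2 * (mu B R v w * ind R v w) ≤ (2 : ℤ) := by
    intro v w
    have hm := mu_nonneg B R v w
    set m := mu B R v w with hmdef
    have hint : ∀ k : ℤ, 0 ≤ k → k ≤ k * k := by
      intro k hk
      rcases hk.eq_or_lt with h | h
      · rw [← h]; simp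
      · nlinarith [Int.add_one_le_iff.2 h]
    have hint2 : ∀ k : ℤ, 0 ≤ k → 3 * k ≤ k * k + 2 := by
      intro k hk
      by_cases h1 : k ≤ 1
      · have : k = 0 ∨ k = 1 := by omega
        rcases this with rfl | rfl <;> norm_num
      · have : 2 ≤ k := by omega
        nlinarith
    by_cases h : v = w
    · subst h
      rw [hmdef, hmv v, ind_self]
      simp
    · rw [if_neg h]
      by_cases hR : R.Adj v w
      · rw [ind_one R hR]
        have := hint m hm
        linarith
      · have : ind R v w = 0 := by simp [ind, hR]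
        rw [this]
        have := hint2 m hm
        linarith
  have h4 : ∑ v : V, ∑ w : V, (2 * (if v = w then 1 else 0) + 2 * ind R v w + (3 * mu B R v w
      - mu B R v w * mu B R v w) - 2 * (mu B R v w * ind R v w)) ≤ ∑ v : V, ∑ w : V, (2 : ℤ) :=
    Finset.sum_le_sum fun v _ => Finset.sum_le_sum fun w _ => h3 v w
  have h5 : ∑ v, ∑ w, mu B R v w * ind R v w ≤ T1 := by
    have e1 : ∀ v, ∑ w, mu B R v w * ind R v w
        = ∑ x, ∑ y, ind R v x * ind R v y * ind B x y := by
      intro v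
      unfold mu
      simp_rw [Finset.sum_mul]
      rw [Finset.sum_comm]
      refine Finset.sum_congr rfl fun x _ => Finset.sum_congr rfl fun y _ => ?_
      ring
    simp_rw [e1]
    rw [hT1]
    refine Finset.sum_le_sum fun v _ => Finset.sum_le_sum fun x _ => Finset.sum_le_sum
      fun y _ => ?_
    have a1 : 0 ≤ ind R v x * ind R v y := mul_nonneg (ind_nonneg _ _ _) (ind_nonneg _ _ _)
    have a2 := ind_nonneg R x y
    nlinarith
  have h6 : ∑ v : V, ∑ w : V, (2 * (if v = w then 1 else 0) + 2 * ind R v w + (3 * mu B R v w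
      - mu B R v w * mu B R v w) - 2 * (mu B R v w * ind R v w))
      = n * (2 + 2 * r + 3 * (r * b)) - ∑ v, ∑ w, mu B R v w * mu B R v w
        - 2 * ∑ v, ∑ w, mu B R v w * ind R v w := by
    have e1 : ∀ v : V, ∑ w : V, (2 * (if v = w then 1 else 0) + 2 * ind R v w + (3 * mu B R v w
      - mu B R v w * mu B R v w) - 2 * (mu B R v w * ind R v w))
      = (2 + 2 * r + 3 * (r * b)) - ∑ w, mu B R v w * mu B R v w
        - 2 * ∑ w, mu B R v w * ind R v w := by
      intro v
      rw [Finset.sum_sub_distrib, Finset.sum_add_distrib, Finset.sum_add_distrib,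
        Finset.sum_sub_distrib, ← Finset.mul_sum, ← Finset.mul_sum, ← Finset.mul_sum,
        ← Finset.mul_sum, sum_ind, hr, sum_mu B R b r hb hr]
      simp
      ring
    simp_rw [e1]
    rw [Finset.sum_sub_distrib, Finset.sum_sub_distrib, Finset.sum_const, Finset.card_univ,
      nsmul_eq_mul, ← Finset.mul_sum]
  rw [h6] at h4
  simp only [Finset.sum_const, Finset.card_univ, nsmul_eq_mul] at h4
  rw [← hn] at h4
  have h7 : n * (2 + 2 * r * (b + 1)) ≤ n * (2 * n + r * (b ^ 2 + b - 2 - 2 * r)) := by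
    have a1 : ((b : ℤ) + 2) * T1 ≤ r * T1 := mul_le_mul_of_nonneg_right hbr' t1
    have a2 := mul_le_mul_of_nonneg_left h2 hrpos.le
    nlinarith
  exact le_of_mul_le_mul_left h7 hnpos

end Pool.Agent.H187F
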