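import Pool.Agent.H187F.Lower2

set_option autoImplicit false

namespace Pool.Agent.H187F

open Finset

open Classical

set_option linter.unusedSectionVars false

variable {V : Type} [Fintype V]

theorem red_disjoint {B R : SimpleGraph V} {r : ℕ} (hr : ∀ v, R.degree v = r)
    (c2 : ∀ v x y, R.Adj v x → R.Adj v y → ¬ (B.Adj x y ∨ R.Adj x y)) (Q : Finset V)
    (hQ : ∀ x ∈ Q, ∀ y ∈ Q, x ≠ y → B.Adj x y ∨ R.Adj x y) :
    (Q.biUnion fun x => R.neighborFinset x).card = Q.card * r := by
  rw [Finset.card_biUnion]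
  · simp only [SimpleGraph.card_neighborFinset_eq_degree, hr]
    rw [Finset.sum_const, smul_eq_mul]
  · intro x hx y hy hxy
    rw [Function.onFun, Finset.disjoint_left]
    intro z hz hz'
    rw [SimpleGraph.mem_neighborFinset] at hz hz'
    exact c2 z x y hz.symm hz'.symm (hQ x hx y hy hxy)

theorem clique_bound {B R : SimpleGraph V} {r : ℕ} (hr : ∀ v, R.degree v = r)
    (c2 : ∀ v x y, R.Adj v x → R.Adj v y → ¬ (B.Adj x y ∨ R.Adj x y)) (Q : Finset V)
    (hQ : ∀ x ∈ Q, ∀ y ∈ Q, x ≠ y → B.Adj x y ∨ R.Adj x y) :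
    Q.card * r ≤ Fintype.card V := by
  rw [← red_disjoint hr c2 Q hQ]
  exact Finset.card_le_univ _

theorem clique_bound' {B R : SimpleGraph V} {r : ℕ} (hr : ∀ v, R.degree v = r)
    (c2 : ∀ v x y, R.Adj v x → R.Adj v y → ¬ (B.Adj x y ∨ R.Adj x y)) (Q : Finset V)
    (hQ : ∀ x ∈ Q, ∀ y ∈ Q, x ≠ y → B.Adj x y ∨ R.Adj x y)
    (hred : ∀ x ∈ Q, ∀ y ∈ Q, ¬ R.Adj x y) :
    Q.card * (r + 1) ≤ Fintype.card V := by
  have h1 := red_disjoint hr c2 Q hQ
  have h2 : Disjoint Q (Q.biUnion fun x => R.neighborFinset x) := by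
    rw [Finset.disjoint_left]
    intro z hz hz'
    rw [Finset.mem_biUnion] at hz'
    obtain ⟨x, hx, hxz⟩ := hz'
    rw [SimpleGraph.mem_neighborFinset] at hxz
    exact hred x hx z hz hxz
  have h3 := Finset.card_le_univ (Q ∪ (Q.biUnion fun x => R.neighborFinset x))
  rw [Finset.card_union_of_disjoint h2, h1] at h3
  linarith

theorem lower_tight (b r : ℕ) (hb3 : 3 ≤ b) (hbr : b < r) (B R : SimpleGraph V) [Nonempty V]
    (hd : ∀ x y, B.Adj x y → ¬ R.Adj x y)
    (hb : ∀ v, B.degree v = b) (hr : ∀ v, R.degree v = r)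
    (c1 : ∀ v x y, B.Adj v x → B.Adj v y → x ≠ y → B.Adj x y ∨ R.Adj x y)
    (c2 : ∀ v x y, R.Adj v x → R.Adj v y → ¬ (B.Adj x y ∨ R.Adj x y)) :
    (b + 1) * (r + 1) ≤ Fintype.card V := by
  obtain ⟨v⟩ := ‹Nonempty V›
  set Q : Finset V := insert v (B.neighborFinset v) with hQdef
  have hvQ : v ∉ B.neighborFinset v := by simp
  have hQc : Q.card = b + 1 := by
    rw [hQdef, Finset.card_insert_of_notMem hvQ, SimpleGraph.card_neighborFinset_eq_degree, hb]
  have memQ : ∀ x, x ∈ Q ↔ x = v ∨ B.Adj v x := by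
    intro x; rw [hQdef]; simp
  have hQ : ∀ x ∈ Q, ∀ y ∈ Q, x ≠ y → B.Adj x y ∨ R.Adj x y := by
    intro x hx y hy hxy
    rw [memQ] at hx hy
    rcases hx with rfl | hx
    · rcases hy with rfl | hy
      · exact absurd rfl hxy
      · exact Or.inl hy
    · rcases hy with rfl | hy
      · exact Or.inl hx.symm
      · exact c1 v x y hx hy hxy
  by_cases hred : ∀ x ∈ Q, ∀ y ∈ Q, ¬ R.Adj x y
  · have := clique_bound' hr c2 Q hQ hred
    rwa [hQc] at this
  · push Not at hred
    obtain ⟨w, hw, w', hw', hww⟩ := hred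
    have hwv : B.Adj v w := by
      rcases (memQ w).1 hw with rfl | h
      · rcases (memQ w').1 hw' with rfl | h'
        · exact absurd hww (R.loopless.irrefl _)
        · exact absurd hww (hd _ _ h')
      · exact h
    have hwv' : B.Adj v w' := by
      rcases (memQ w').1 hw' with rfl | h
      · exact absurd hww.symm (hd _ _ hwv)
      · exact h
    have hne : w ≠ w' := hww.ne
    -- blue edges from `w` and `w'` to the other elements
    have hbw : ∀ x, B.Adj v x → x ≠ w → x ≠ w' → B.Adj w x := by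
      intro x hx h1 h2
      rcases c1 v w x hwv hx (Ne.symm h1) with h | h
      · exact h
      · exact absurd (c1 v w' x hwv' hx (Ne.symm h2)) (c2 w w' x hww h)
    have hbw' : ∀ x, B.Adj v x → x ≠ w → x ≠ w' → B.Adj w' x := by
      intro x hx h1 h2
      rcases c1 v w' x hwv' hx (Ne.symm h2) with h | h
      · exact h
      · exact absurd (c1 v w x hwv hx (Ne.symm h1)) (c2 w' w x hww.symm h)
    -- the further vertex
    obtain ⟨u, hu, huQ⟩ : ∃ u, B.Adj w u ∧ u ∉ Q := by
      by_contra hcon
      push Not at hcon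
      have hsub : B.neighborFinset w ⊆ (Q.erase w).erase w' := by
        intro x hx
        rw [SimpleGraph.mem_neighborFinset] at hx
        rw [Finset.mem_erase, Finset.mem_erase]
        refine ⟨?_, hx.ne', hcon x hx⟩
        rintro rfl
        exact hd _ _ hx hww
      have hc := Finset.card_le_card hsub
      rw [SimpleGraph.card_neighborFinset_eq_degree, hb, Finset.card_erase_of_mem
        (Finset.mem_erase.2 ⟨hne.symm, hw'⟩), Finset.card_erase_of_mem hw, hQc] at hc
      omega
    have huv : u ≠ v := by rintro rfl; exact huQ ((memQ _).2 (Or.inl rfl))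
    have huB : ¬ B.Adj v u := fun h => huQ ((memQ _).2 (Or.inr h))
    have hRvu : R.Adj v u := by
      rcases c1 w v u hwv.symm hu huv.symm with h | h
      · exact absurd h huB
      · exact h
    have hux : ∀ x, B.Adj v x → x ≠ w → x ≠ w' → B.Adj x u := by
      intro x hx h1 h2
      have hxu : x ≠ u := by rintro rfl; exact huB hx
      rcases c1 w x u (hbw x hx h1 h2) hu hxu with h | h
      · exact h
      · exact absurd (Or.inl hx) (c2 u v x hRvu.symm h.symm)
    obtain ⟨x, hx, hxw, hxw'⟩ : ∃ x, B.Adj v x ∧ x ≠ w ∧ x ≠ w' := by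
      have hc : 0 < (((B.neighborFinset v).erase w).erase w').card := by
        have a1 := Finset.pred_card_le_card_erase (s := B.neighborFinset v) (a := w)
        have a2 := Finset.pred_card_le_card_erase (s := (B.neighborFinset v).erase w) (a := w')
        rw [SimpleGraph.card_neighborFinset_eq_degree, hb] at a1
        omega
      obtain ⟨x, hx⟩ := Finset.card_pos.1 hc
      rw [Finset.mem_erase, Finset.mem_erase, SimpleGraph.mem_neighborFinset] at hx
      exact ⟨x, hx.2.2, hx.2.1, hx.1⟩
    have hw'u : B.Adj w' u ∨ R.Adj w' u := by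
      have hne2 : w' ≠ u := by rintro rfl; exact huB hwv'
      exact c1 x w' u (hbw' x hx hxw hxw').symm (hux x hx hxw hxw') hne2
    have huQ' : ∀ y ∈ Q, B.Adj y u ∨ R.Adj y u := by
      intro y hy
      rcases (memQ y).1 hy with rfl | hy'
      · exact Or.inr hRvu
      · by_cases h1 : y = w
        · subst h1; exact Or.inl hu
        · by_cases h2 : y = w'
          · subst h2; exact hw'u
          · exact Or.inl (hux y hy' h1 h2)
    have hQ' : ∀ x ∈ insert u Q, ∀ y ∈ insert u Q, x ≠ y → B.Adj x y ∨ R.Adj x y := by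
      intro y hy z hz hyz
      rw [Finset.mem_insert] at hy hz
      rcases hy with rfl | hy
      · rcases hz with rfl | hz
        · exact absurd rfl hyz
        · rcases huQ' z hz with h | h
          · exact Or.inl h.symm
          · exact Or.inr h.symm
      · rcases hz with rfl | hz
        · exact huQ' y hy
        · exact hQ y hy z hz hyz
    have hfin := clique_bound hr c2 (insert u Q) hQ'
    rw [Finset.card_insert_of_notMem huQ, hQc] at hfin
    nlinarith

end Pool.Agent.H187F
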